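import Pool.Agent.Lib.IK.Fin
import Pool.Agent.Lib.IK.LevInv
import Pool.Agent.Lib.IK.Ind
import Pool.Agent.Lib.IK.AlgB
import Pool.Agent.Lib.IK.Der
import Pool.Agent.Lib.IK.Inv
import Pool.Agent.Lib.IK.EntP
import Pool.Agent.Lib.IK.Div
import Pool.Agent.Lib.IK.Jac1

/-!
# Iitaka's conjecture: multipliers of a Kähler potential which are polynomially bounded on one side

Problem MP_bb7be3_ag, Q1. Let `M` be a compact Kähler manifold uniformized by `C^n`, with the deck group `Γ` acting on `C^n`.
The pull-back of the Kähler form to `C^n` is `i∂∂̄φ` for a smooth function `φ`; the functions `φ ∘ γ - φ` are its multipliers.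
THEOREM: if every multiplier is bounded above or below by a power of `R` on the balls `‖x‖ ≤ R`, for arbitrarily large `R` (any power,
which may depend on `γ`; for example `φ` is bounded below and `φ ≤ R^N` on these balls), then all deck transformations are
polynomial automorphisms of `C^n` with constant Jacobian determinants. So the canonical bundle of `M` is flat, `c_1(M) = 0`, and `M` is
covered by a complex torus by the theorem of Yau quoted in the problem file (this last step is not part of the Lean theorem).

PROOF. (1) The multipliers are real parts of entire functions and, by Borel-Caratheodory, of polynomials `p_γ`. (2) If the rank of the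
differentials `dp_γ` were `< n`, there would be an algebraic curve along which all multipliers are locally constant; `exp(-κφ)`, for a small
`κ > 0`, is a strictly superharmonic function on it (this is checked on a compact set which meets all orbits), and a positive superharmonic function on an
algebraic curve is constant (barrier `log|β(t)| - N log|t - t0|`): a contradiction. (3) So there are `n` algebraically independent `p_γ`, and for
every `δ ∈ Γ` the coordinates of `δ` are algebraic over the polynomials; they are entire, so polynomials. (author helper69)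
-/

set_option autoImplicit false

noncomputable section

open Filter Topology

namespace Pool.Agent.Results.MP_bb7be3_ag.PolynomialMultipliers

/-- The Levi form of the function `φ` on `C^n` at `x` in the direction `v`: `D²φ(v, v) + D²φ(iv, iv)`, which is four times
`∑ (∂²φ/∂z_j∂z̄_k) v_j v̄_k`. -/
def leviForm {n : ℕ} (φ : (Fin n → ℂ) → ℝ) (x v : Fin n → ℂ) : ℝ :=
  fderiv ℝ (fderiv ℝ φ) x v v + fderiv ℝ (fderiv ℝ φ) x (Complex.I • v) (Complex.I • v)

/-- The group `Γ` acts on `C^n` by holomorphic maps, some compact set meets all orbits, and `i∂∂̄φ` is a positive `(1,1)`-form invariant under `Γ`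
(`φ` is a `C²` function). If `M` is a compact Kähler manifold with the universal cover `C^n`, its deck group `Γ` and a potential `φ` of the pull-back
of the Kähler form have these properties. -/
structure IsKaehlerPotential {n : ℕ} (Γ : Type*) [Group Γ] [MulAction Γ (Fin n → ℂ)] (φ : (Fin n → ℂ) → ℝ) : Prop where
  holomorphic : ∀ γ : Γ, Differentiable ℂ fun x : Fin n → ℂ => γ • x
  cocompact : ∃ K : Set (Fin n → ℂ), IsCompact K ∧ ∀ x : Fin n → ℂ, ∃ γ : Γ, γ • x ∈ K
  smooth : ContDiff ℝ 2 φ
  positive : ∀ x v : Fin n → ℂ, v ≠ 0 → 0 < leviForm φ x v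
  invariant : ∀ (γ : Γ) (x v : Fin n → ℂ),
    leviForm φ (γ • x) (fderiv ℂ (fun y : Fin n → ℂ => γ • y) x v) = leviForm φ x v

/-- **Kähler potentials with multipliers polynomially bounded on one side: all deck transformations are polynomial automorphisms with constant
Jacobian determinants.** -/
theorem result {n : ℕ} {Γ : Type*} [Group Γ] [MulAction Γ (Fin n → ℂ)] {φ : (Fin n → ℂ) → ℝ}
    (h : IsKaehlerPotential Γ φ)
    (hgrowth : ∀ γ : Γ, ∃ N : ℕ, ∃ᶠ R : ℝ in atTop,
      (∀ x : Fin n → ℂ, ‖x‖ ≤ R → φ (γ • x) - φ x ≤ R ^ N) ∨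
      (∀ x : Fin n → ℂ, ‖x‖ ≤ R → -(R ^ N) ≤ φ (γ • x) - φ x)) :
    ∀ γ : Γ, ∃ P : Fin n → MvPolynomial (Fin n) ℂ,
      (∀ (x : Fin n → ℂ) (i : Fin n), (γ • x) i = MvPolynomial.eval x (P i)) ∧
      ∃ c : ℂ, c ≠ 0 ∧ (Matrix.of fun i j => MvPolynomial.pderiv j (P i)).det = MvPolynomial.C c := by
  obtain ⟨K, hKc, hcov⟩ := h.cocompact
  intro γ
  obtain ⟨P, hP, hc⟩ := Pool.Agent.IK.partB (Pool.Agent.IK.tAlgB Pool.Agent.IK.tInd) Pool.Agent.IK.tDer
    (Pool.Agent.IK.tInv Pool.Agent.IK.tDer) Pool.Agent.IK.tEntP Pool.Agent.IK.tDiv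
    (Pool.Agent.IK.tJac1 Pool.Agent.IK.tDer) h.holomorphic hKc hcov h.smooth h.positive
    (fun γ => Pool.Agent.IK.mult h.smooth (h.holomorphic γ) (h.invariant γ))
    (fun γ => by
      obtain ⟨N, hN⟩ := hgrowth γ
      refine ⟨N, hN.mono fun R hR => hR.imp_right fun h2 x hx => ?_⟩
      linarith [h2 x hx]) γ
  exact ⟨P, fun x i => congrFun (hP x) i, hc⟩

end Pool.Agent.Results.MP_bb7be3_ag.PolynomialMultipliers
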