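import Pool.Agent.Lib.IK.ThN

/-!
# Iitaka's conjecture: growth of the potential and the numerical dimension

Problem MP_bb7be3_ag, Q1. Let `M` be a compact Kähler manifold uniformized by `C^n`, with the deck group `Γ` acting on `C^n`.
The pull-back of the Kähler form `ω` to `C^n` is `i∂∂̄φ` for a smooth function `φ`. A volume form on `M` is a density `exp W dV` on `C^n` invariant
under `Γ`, and `i∂∂̄W` represents `2π c_1(K_M)`.
THEOREM: there is a constant `C` (it depends on `Γ` and `φ` only) such that for all invariant densities `exp W dV` and all `0 ≤ ε ≤ 1`, `R > 0`, `c > 0`: if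
`θ = i∂∂̄(W + εφ) ≥ 0` and `θ^n ≥ c ω^n` then `c R^{2n} ≤ exp (C + ε sup_{‖x‖ ≤ R + C} φ)`.
If `K_M` is nef (so if `M` is projective: `M` has no rational curves) of numerical dimension `ν`, then for every `ε` there is such a `W` with `c ≥ c_0 ε^{n-ν}` (Yau), so
`sup_{‖x‖ ≤ R} φ ≥ c_1 R^{2n/(n-ν)}` for all large `R`: either `M` is covered by a complex torus (`ν = 0`) or every potential of every Kähler form on `M`, in all coordinates
of `C^n`, grows at least like `R^{2n/(n-1)}`. For the flat metric of a torus it grows like `R^2`. These consequences are not part of the Lean theorem.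

PROOF. Let `z ∈ K` be a maximum of the `Γ`-invariant function `W - log det φ_{jk̄}`. On the polydisc of radius `R` around `z` the function
`W + εφ + 2 ∑ log(R² - |y_j - z_j|²)` attains its maximum at a point `y`, where `θ ≤ 2 ∑ R² (R² - |y_j - z_j|²)^{-2} i dy_j ∧ dȳ_j`; compare the determinants.
(theorem of helper81, Lean by helper69)
-/

set_option autoImplicit false

noncomputable section

open Filter Topology

namespace Pool.Agent.Results.MP_bb7be3_ag.PotentialGrowth

/-- The second (real) derivative `D²f(v, w)` of `f` at `x`. -/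
def secondDerivative {n : ℕ} (f : (Fin n → ℂ) → ℝ) (x v w : Fin n → ℂ) : ℝ := fderiv ℝ (fderiv ℝ f) x v w

/-- The Levi form of the function `φ` on `C^n` at `x` in the direction `v`: `D²φ(v, v) + D²φ(iv, iv)`, which is four times
`∑ (∂²φ/∂z_j∂z̄_k) v_j v̄_k`. -/
def leviForm {n : ℕ} (φ : (Fin n → ℂ) → ℝ) (x v : Fin n → ℂ) : ℝ :=
  secondDerivative φ x v v + secondDerivative φ x (Complex.I • v) (Complex.I • v)

/-- The group `Γ` acts on `C^n` by holomorphic maps, some compact set meets all orbits, and `i∂∂̄φ` is a positive `(1,1)`-form invariant under `Γ`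
(`φ` is a `C²` function). If `M` is a compact Kähler manifold with the universal cover `C^n`, its deck group `Γ` and a potential `φ` of the pull-back
of the Kähler form have these properties. -/
structure IsKaehlerPotential {n : ℕ} (Γ : Type*) [Group Γ] [MulAction Γ (Fin n → ℂ)] (φ : (Fin n → ℂ) → ℝ) : Prop where
  holomorphic : ∀ γ : Γ, Differentiable ℂ fun x : Fin n → ℂ => γ • x
  cocompact : ∃ K : Set (Fin n → ℂ), IsCompact K ∧ ∀ x : Fin n → ℂ, ∃ γ : Γ, γ • x ∈ K
  smooth : ContDiff ℝ 2 φ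
  positive : ∀ x v : Fin n → ℂ, v ≠ 0 → 0 < leviForm φ x v
  invariant : ∀ (γ : Γ) (x v : Fin n → ℂ),
    leviForm φ (γ • x) (fderiv ℂ (fun y : Fin n → ℂ => γ • y) x v) = leviForm φ x v

/-- The complex Hessian matrix of `f` at `x`. Its entry `(j, k)` is `∂²f/∂z̄_j∂z_k`, which is
`(1/4) (D²f(e_j, e_k) + D²f(ie_j, ie_k) + i (D²f(ie_j, e_k) - D²f(e_j, ie_k)))`. -/
def complexHessian {n : ℕ} (f : (Fin n → ℂ) → ℝ) (x : Fin n → ℂ) : Matrix (Fin n) (Fin n) ℂ :=
  Matrix.of fun j k => (1 / 4 : ℂ) *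
    (((secondDerivative f x (Pi.single j 1) (Pi.single k 1) +
        secondDerivative f x (Complex.I • Pi.single j 1) (Complex.I • Pi.single k 1) : ℝ) : ℂ) +
      Complex.I * ((secondDerivative f x (Complex.I • Pi.single j 1) (Pi.single k 1) -
        secondDerivative f x (Pi.single j 1) (Complex.I • Pi.single k 1) : ℝ) : ℂ))

/-- `W` is a `C²` function on `C^n` and the volume form `exp W dV` is invariant under `Γ`. -/
def IsInvariantDensity {n : ℕ} (Γ : Type*) [Group Γ] [MulAction Γ (Fin n → ℂ)] (W : (Fin n → ℂ) → ℝ) : Prop :=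
  ContDiff ℝ 2 W ∧ ∀ (γ : Γ) (x : Fin n → ℂ),
    Real.exp (W (γ • x)) * ‖(fderiv ℂ (fun y : Fin n → ℂ => γ • y) x).det‖ ^ 2 = Real.exp (W x)

/-- **The growth of the potential bounds the Monge-Ampère measures of the semipositive forms in `2π c_1(K_M) + ε[ω]`.** -/
theorem result {n : ℕ} {Γ : Type*} [Group Γ] [MulAction Γ (Fin n → ℂ)] {φ : (Fin n → ℂ) → ℝ}
    (h : IsKaehlerPotential Γ φ) :
    ∃ C : ℝ, ∀ (W : (Fin n → ℂ) → ℝ) (ε R c m : ℝ), IsInvariantDensity Γ W → 0 ≤ ε → ε ≤ 1 → 0 < R → 0 < c →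
      (∀ x v : Fin n → ℂ, 0 ≤ leviForm (fun y => W y + ε * φ y) x v) →
      (∀ x : Fin n → ℂ, c * (complexHessian φ x).det.re ≤ (complexHessian (fun y => W y + ε * φ y) x).det.re) →
      (∀ x : Fin n → ℂ, ‖x‖ ≤ R + C → φ x ≤ m) →
      c * R ^ (2 * n) ≤ Real.exp (C + ε * m) := by
  obtain ⟨K, hKc, hcov⟩ := h.cocompact
  exact Pool.Agent.IK.partN hKc hcov h.smooth h.positive h.invariant

end Pool.Agent.Results.MP_bb7be3_ag.PotentialGrowth
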