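import Pool.Agent.Lib.IK.ThI

/-!
# Iitaka's conjecture: potentials of regular growth

Problem MP_bb7be3_ag, Q1. Let `M` be a compact Kähler manifold uniformized by `C^n`, with the deck group `Γ` acting on `C^n`.
The pull-back of the Kähler form `ω` to `C^n` is `i∂∂̄φ` for a smooth function `φ`. A volume form on `M` is a density `exp W dV` on `C^n` invariant
under `Γ`, and `i∂∂̄W` represents `2π c_1(K_M)`.
THEOREM: if `φ` has regular growth, which means that for every `ε > 0` there is `C` with `φ ≤ (1 + ε) φ(x) + C` on the ball of radius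
`exp(-(ε φ(x) + C))` around `x`, for all `x` (so `φ` is bounded below; no upper bound of any kind), then no invariant density
has `tr_ω(i∂∂̄W) > 0` everywhere.
So `K_M · [ω]^{n-1} ≤ 0` (solve the Poisson equation on `M`); `M` contains no rational curve, so `K_M` is pseudo-effective, `c_1(M) = 0`, and `M` is covered by a
complex torus (Yau). These consequences are not part of the Lean theorem.

PROOF. (1) Schwarz lemma: let `i∂∂̄W ≥ -(A - 1) ω`. On the polydisc of radius `ρ` around `x` the function `W + Aφ + 2 ∑ log(ρ² - |y_j - x_j|²)` attains its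
maximum at a point `y`, where `ω ≤ 2 ∑ ρ² (ρ² - |y_j - x_j|²)^{-2} i dy_j ∧ dȳ_j`, and `exp W` is comparable with the density of `ω^n`: so
`W(x) ≤ B + A (φ(y) - φ(x)) - 2n log ρ`. With `ρ = exp(-(ε φ(x) + C))`: `W ≤ aφ + B'` for every `a > 0`. (2) If `tr_ω(i∂∂̄W) > 0` everywhere, choose `a` so small that
`G = W - aφ` has `tr_ω(i∂∂̄G) ≥ c > 0` near the compact set `K`. `G` is bounded above. Move an almost maximal point of `G` into `K` by `γ ∈ Γ`; `i∂∂̄G` is invariant.
`G ∘ γ⁻¹ - 2δ |y - y_0|²` has an interior maximum on the unit polydisc around `y_0`, so `tr_ω(i∂∂̄G) ≤ O(δ)` there: a contradiction.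
(author helper69, after a theorem of helper81 for proper potentials)
-/

set_option autoImplicit false

noncomputable section

open Filter Topology

namespace Pool.Agent.Results.MP_bb7be3_ag.RegularPotentials

/-- The second (real) derivative `D²f(v, w)` of `f` at `x`. -/
def secondDerivative {n : ℕ} (f : (Fin n → ℂ) → ℝ) (x v w : Fin n → ℂ) : ℝ := fderiv ℝ (fderiv ℝ f) x v w

/-- The Levi form of the function `φ` on `C^n` at `x` in the direction `v`: `D²φ(v, v) + D²φ(iv, iv)`, which is four times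
`∑ (∂²φ/∂z_j∂z̄_k) v_j v̄_k`. -/
def leviForm {n : ℕ} (φ : (Fin n → ℂ) → ℝ) (x v : Fin n → ℂ) : ℝ :=
  secondDerivative φ x v v + secondDerivative φ x (Complex.I • v) (Complex.I • v)

/-- The group `Γ` acts on `C^n` by holomorphic maps, some compact set meets all orbits, and `i∂∂̄φ` is a positive `(1,1)`-form invariant under `Γ`
(`φ` is a `C²` function). If `M` is a compact Kähler manifold with the universal cover `C^n`, its deck group `Γ` and a potential `φ` of the pull-back
of the Kähler form have these properties. -/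
structure IsKaehlerPotential {n : ℕ} (Γ : Type*) [Group Γ] [MulAction Γ (Fin n → ℂ)] (φ : (Fin n → ℂ) → ℝ) : Prop where
  holomorphic : ∀ γ : Γ, Differentiable ℂ fun x : Fin n → ℂ => γ • x
  cocompact : ∃ K : Set (Fin n → ℂ), IsCompact K ∧ ∀ x : Fin n → ℂ, ∃ γ : Γ, γ • x ∈ K
  smooth : ContDiff ℝ 2 φ
  positive : ∀ x v : Fin n → ℂ, v ≠ 0 → 0 < leviForm φ x v
  invariant : ∀ (γ : Γ) (x v : Fin n → ℂ),
    leviForm φ (γ • x) (fderiv ℂ (fun y : Fin n → ℂ => γ • y) x v) = leviForm φ x v

/-- The complex Hessian matrix of `f` at `x`. Its entry `(j, k)` is `∂²f/∂z̄_j∂z_k`, which is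
`(1/4) (D²f(e_j, e_k) + D²f(ie_j, ie_k) + i (D²f(ie_j, e_k) - D²f(e_j, ie_k)))`. -/
def complexHessian {n : ℕ} (f : (Fin n → ℂ) → ℝ) (x : Fin n → ℂ) : Matrix (Fin n) (Fin n) ℂ :=
  Matrix.of fun j k => (1 / 4 : ℂ) *
    (((secondDerivative f x (Pi.single j 1) (Pi.single k 1) +
        secondDerivative f x (Complex.I • Pi.single j 1) (Complex.I • Pi.single k 1) : ℝ) : ℂ) +
      Complex.I * ((secondDerivative f x (Complex.I • Pi.single j 1) (Pi.single k 1) -
        secondDerivative f x (Pi.single j 1) (Complex.I • Pi.single k 1) : ℝ) : ℂ))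

/-- `W` is a `C²` function on `C^n` and the volume form `exp W dV` is invariant under `Γ`. -/
def IsInvariantDensity {n : ℕ} (Γ : Type*) [Group Γ] [MulAction Γ (Fin n → ℂ)] (W : (Fin n → ℂ) → ℝ) : Prop :=
  ContDiff ℝ 2 W ∧ ∀ (γ : Γ) (x : Fin n → ℂ),
    Real.exp (W (γ • x)) * ‖(fderiv ℂ (fun y : Fin n → ℂ => γ • y) x).det‖ ^ 2 = Real.exp (W x)

/-- **If the Kähler form has a potential of regular growth then no invariant volume form `exp W dV` has `tr_ω(i∂∂̄W) > 0` everywhere.** -/
theorem result {n : ℕ} {Γ : Type*} [Group Γ] [MulAction Γ (Fin n → ℂ)] {φ : (Fin n → ℂ) → ℝ}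
    (h : IsKaehlerPotential Γ φ)
    (hregular : ∀ ε : ℝ, 0 < ε → ∃ C : ℝ, ∀ x y : Fin n → ℂ,
      ‖y - x‖ ≤ Real.exp (-(ε * φ x + C)) → φ y ≤ (1 + ε) * φ x + C)
    {W : (Fin n → ℂ) → ℝ} (hW : IsInvariantDensity Γ W) :
    ∃ x : Fin n → ℂ, ((complexHessian φ x)⁻¹ * complexHessian W x).trace.re ≤ 0 := by
  obtain ⟨K, hKc, hcov⟩ := h.cocompact
  exact Pool.Agent.IK.partI h.holomorphic hKc hcov h.smooth h.positive h.invariant hregular hW

end Pool.Agent.Results.MP_bb7be3_ag.RegularPotentials
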