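import Pool.Agent.Lib.IK.ThJ

/-!
# Iitaka's conjecture: deck transformations with subexponential Jacobians

Problem MP_bb7be3_ag, Q1. Let `M` be a compact Kähler manifold uniformized by `C^n`, with the deck group `Γ` acting on `C^n`, `K ⊆ C^n` a compact set which meets
all orbits, and `ℓ` the word length of `Γ` (or any subadditive function on `Γ`). A volume form on `M` is a density `exp W dV` on `C^n` invariant under `Γ`, and `i∂∂̄W`
represents `2π c_1(K_M)`.
THEOREM: (i) if for every `ε > 0` there is `C` with `|det Dγ(z)| ≥ exp(-ε ℓ(γ) - C)` for all `γ ∈ Γ`, `z ∈ K`, then `tr_h(i∂∂̄W) ≤ 0` at some point, for every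
invariant density and every hermitian metric `h`. (ii) If for every `ε > 0` there is `C` with `|det Dγ(z)| ≤ exp(ε ℓ(γ) + C)`, then `tr_h(i∂∂̄W) ≥ 0` at some point.
So, if the Jacobian determinants of the deck transformations are subexponential in the word length on a fundamental domain, then `K_M · [ω]^{n-1} = 0` for all Kähler classes
(solve the Poisson equation on `M`), `c_1(M) = 0`, and `M` is covered by a complex torus (Yau). These consequences are not part of the Lean theorem.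

PROOF. Suppose that `tr_h(i∂∂̄V) > 0` everywhere, `V = W` or `V = -W`; the form `i∂∂̄V` is invariant. For `z ∈ K` and `γ ∈ Γ` the function `V ∘ γ - δ |y - z|²` has no interior
maximum on the unit polydisc around `z`, so there is a point `y` in the polydisc with `V(γ y) ≥ V(γ z) + δ`; move `y` into `K` by one of finitely many elements of `Γ`, and repeat. We get
`γ_k ∈ Γ` and `z_k ∈ K` with `V(γ_k z_k) ≥ k δ - C` and `ℓ(γ_k) ≤ k L + C`, but `W(γ_k z_k) = W(z_k) - 2 log |det Dγ_k(z_k)|`. (author helper69)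
-/

set_option autoImplicit false

noncomputable section

open Filter Topology
open scoped ComplexOrder

namespace Pool.Agent.Results.MP_bb7be3_ag.SubexponentialJacobians

/-- The second (real) derivative `D²f(v, w)` of `f` at `x`. -/
def secondDerivative {n : ℕ} (f : (Fin n → ℂ) → ℝ) (x v w : Fin n → ℂ) : ℝ := fderiv ℝ (fderiv ℝ f) x v w

/-- The complex Hessian matrix of `f` at `x`. Its entry `(j, k)` is `∂²f/∂z̄_j∂z_k`, which is
`(1/4) (D²f(e_j, e_k) + D²f(ie_j, ie_k) + i (D²f(ie_j, e_k) - D²f(e_j, ie_k)))`. -/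
def complexHessian {n : ℕ} (f : (Fin n → ℂ) → ℝ) (x : Fin n → ℂ) : Matrix (Fin n) (Fin n) ℂ :=
  Matrix.of fun j k => (1 / 4 : ℂ) *
    (((secondDerivative f x (Pi.single j 1) (Pi.single k 1) +
        secondDerivative f x (Complex.I • Pi.single j 1) (Complex.I • Pi.single k 1) : ℝ) : ℂ) +
      Complex.I * ((secondDerivative f x (Complex.I • Pi.single j 1) (Pi.single k 1) -
        secondDerivative f x (Pi.single j 1) (Complex.I • Pi.single k 1) : ℝ) : ℂ))

/-- The group `Γ` acts on `C^n` by holomorphic maps, properly discontinuously, and the compact set `K` meets all orbits. -/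
structure IsCocompact {n : ℕ} (Γ : Type*) [Group Γ] [MulAction Γ (Fin n → ℂ)] (K : Set (Fin n → ℂ)) : Prop where
  holomorphic : ∀ γ : Γ, Differentiable ℂ fun x : Fin n → ℂ => γ • x
  proper : ∀ L : Set (Fin n → ℂ), IsCompact L → {γ : Γ | ∃ x ∈ L, γ • x ∈ L}.Finite
  compact : IsCompact K
  meets : ∀ x : Fin n → ℂ, ∃ γ : Γ, γ • x ∈ K

/-- The Jacobian determinant of `γ` at `z`. -/
def jacobian {n : ℕ} {Γ : Type*} [Group Γ] [MulAction Γ (Fin n → ℂ)] (γ : Γ) (z : Fin n → ℂ) : ℂ :=
  (fderiv ℂ (fun y : Fin n → ℂ => γ • y) z).det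

/-- `W` is a `C²` function on `C^n` and the volume form `exp W dV` is invariant under `Γ`. -/
def IsInvariantDensity {n : ℕ} (Γ : Type*) [Group Γ] [MulAction Γ (Fin n → ℂ)] (W : (Fin n → ℂ) → ℝ) : Prop :=
  ContDiff ℝ 2 W ∧ ∀ (γ : Γ) (x : Fin n → ℂ), Real.exp (W (γ • x)) * ‖jacobian γ x‖ ^ 2 = Real.exp (W x)

/-- **If the Jacobian determinants of the deck transformations do not decay (do not grow) exponentially in the word length, then for every invariant volume form
`exp W dV` and every hermitian metric `h` the trace `tr_h(i∂∂̄W)` is `≤ 0` (is `≥ 0`) at some point.** -/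
theorem result {n : ℕ} {Γ : Type*} [Group Γ] [MulAction Γ (Fin n → ℂ)] {K : Set (Fin n → ℂ)} (hK : IsCocompact Γ K)
    (ℓ : Γ → ℝ) (hℓ : ∀ γ δ : Γ, ℓ (γ * δ) ≤ ℓ γ + ℓ δ)
    {W : (Fin n → ℂ) → ℝ} (hW : IsInvariantDensity Γ W)
    {h : (Fin n → ℂ) → Matrix (Fin n) (Fin n) ℂ} (hcont : Continuous h) (hpos : ∀ x, (h x).PosDef) :
    ((∀ ε : ℝ, 0 < ε → ∃ C : ℝ, ∀ γ : Γ, ∀ z ∈ K, Real.exp (-(ε * ℓ γ + C)) ≤ ‖jacobian γ z‖) →
      ∃ x : Fin n → ℂ, ((h x)⁻¹ * complexHessian W x).trace.re ≤ 0) ∧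
    ((∀ ε : ℝ, 0 < ε → ∃ C : ℝ, ∀ γ : Γ, ∀ z ∈ K, ‖jacobian γ z‖ ≤ Real.exp (ε * ℓ γ + C)) →
      ∃ x : Fin n → ℂ, 0 ≤ ((h x)⁻¹ * complexHessian W x).trace.re) :=
  Pool.Agent.IK.partJ hK.holomorphic hK.compact hK.meets hK.proper ℓ hℓ hW hcont hpos

end Pool.Agent.Results.MP_bb7be3_ag.SubexponentialJacobians
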